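import Pool.Agent.H84.PP.Small2
import Pool.Agent.H94.PP.Defs

/-!
MP_28250c, project PP, block B' (helper84): the small functional, part 3: padding with fixed pairs, transport to the pigeons and the holes.
-/

set_option autoImplicit false
set_option linter.unusedSectionVars false

namespace Pool.Agent.H84.PP

open Finset Classical

/-! ### padding -/

/-- the padded involution -/
def muP {X O : Type} (k : ℕ) (mu : O → X → X) (o : O) (z : X ⊕ (Fin k × Bool)) : X ⊕ (Fin k × Bool) :=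
  match z with
  | .inl x => .inl (mu o x)
  | .inr c => .inr (c.1, !c.2)

/-- the padded sign -/
def sgP {X : Type} (k : ℕ) (sg : X → Bool) (z : X ⊕ (Fin k × Bool)) : Bool :=
  match z with
  | .inl x => sg x
  | .inr c => c.2

section Pad

variable {p l k : ℕ} {X : Type} [Fintype X] {sg : X → Bool} {O : Type} [Fintype O] {mu : O → X → X}

theorem pad_inv (h : Lev p l X sg O mu) (o : O) (z : X ⊕ (Fin k × Bool)) : muP k mu o (muP k mu o z) = z := by
  rcases z with x | ⟨c, b⟩
  · show Sum.inl (mu o (mu o x)) = Sum.inl x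
    rw [h.inv]
  · show Sum.inr (c, !!b) = Sum.inr (c, b)
    rw [Bool.not_not]

theorem pad_sgn (h : Lev p l X sg O mu) (o : O) (z : X ⊕ (Fin k × Bool)) (hz : muP k mu o z ≠ z) :
    sgP k sg (muP k mu o z) ≠ sgP k sg z := by
  rcases z with x | ⟨c, b⟩
  · show sg (mu o x) ≠ sg x
    refine h.sgn o x fun h2 => hz ?_
    show Sum.inl (mu o x) = Sum.inl x
    rw [h2]
  · show (!b) ≠ b
    cases b <;> simp

theorem pad_cnt (b : Bool) : nf (fun z => sgP k sg z = b) = nf (fun x => sg x = b) + k := by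
  rw [nf_sum, nf_sum, Fintype.sum_sum_type, Fintype.sum_prod_type]
  congr 1
  have : ∀ c : Fin k, ∑ b' : Bool, (if sgP k sg (Sum.inr (c, b')) = b then 1 else 0) = 1 := by
    intro c
    rw [Fintype.sum_bool]
    show (if true = b then 1 else 0) + (if false = b then 1 else 0) = 1
    cases b <;> simp
  rw [sum_congr rfl fun c _ => this c, sum_const, card_univ, Fintype.card_fin, smul_eq_mul, mul_one]

theorem pad_zer (h : Lev p l X sg O mu) (T : Finset ((X ⊕ (Fin k × Bool)) × (X ⊕ (Fin k × Bool))))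
    (hT : ∀ t ∈ T, t.1 ≠ t.2) (hc : T.card + 2 ≤ 2 ^ l) (z : X ⊕ (Fin k × Bool)) :
    ((nf (fun o : O => muP k mu o z = z ∧ ∀ t ∈ T, muP k mu o t.1 = t.2) : ℕ) : ZMod p) = 0 := by
  rcases z with x | ⟨c, b⟩
  swap
  · rw [nf_zero, Nat.cast_zero]
    rintro o ⟨h1, -⟩
    have h2 : (Sum.inr (c, !b) : X ⊕ (Fin k × Bool)) = Sum.inr (c, b) := h1
    simp at h2
  by_cases hex : ∃ o : O, ∀ t ∈ T, muP k mu o t.1 = t.2
  swap
  · rw [nf_zero, Nat.cast_zero]
    rintro o ⟨-, h1⟩
    exact hex ⟨o, h1⟩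
  obtain ⟨o0, ho0⟩ := hex
  obtain ⟨T', hT'⟩ : ∃ T' : Finset (X × X), T' = univ.filter
    (fun w => ((Sum.inl w.1, Sum.inl w.2) : (X ⊕ (Fin k × Bool)) × (X ⊕ (Fin k × Bool))) ∈ T) := ⟨_, rfl⟩
  have hcard : T'.card ≤ T.card := by
    refine card_le_card_of_injOn (fun w => (Sum.inl w.1, Sum.inl w.2)) ?_ ?_
    · intro w hw
      rw [hT'] at hw
      exact (mem_filter.1 hw).2
    · intro w _ w' _ h1
      have h1 : ((Sum.inl w.1, Sum.inl w.2) : (X ⊕ (Fin k × Bool)) × (X ⊕ (Fin k × Bool))) =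
        (Sum.inl w'.1, Sum.inl w'.2) := h1
      obtain ⟨h2, h3⟩ := Prod.ext_iff.1 h1
      exact Prod.ext (Sum.inl_injective h2) (Sum.inl_injective h3)
  rw [← h.zer T' ?_ (by omega) x]
  · congr 1
    refine nf_congr fun o => ?_
    constructor
    · rintro ⟨h1, h2⟩
      refine ⟨Sum.inl_injective h1, fun w hw => ?_⟩
      rw [hT'] at hw
      exact Sum.inl_injective (h2 _ (mem_filter.1 hw).2)
    · rintro ⟨h1, h2⟩
      refine ⟨congrArg Sum.inl h1, fun t ht => ?_⟩
      obtain ⟨a, b⟩ := t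
      have h3 := ho0 _ ht
      rcases a with a | a
      · have h3 : (Sum.inl (mu o0 a) : X ⊕ (Fin k × Bool)) = b := h3
        show (Sum.inl (mu o a) : X ⊕ (Fin k × Bool)) = b
        have h4 := h2 (a, mu o0 a) (by
          rw [hT', mem_filter]
          refine ⟨mem_univ _, ?_⟩
          show ((Sum.inl a, Sum.inl (mu o0 a)) : (X ⊕ (Fin k × Bool)) × (X ⊕ (Fin k × Bool))) ∈ T
          rw [h3]
          exact ht)
        rw [h4]
        exact h3
      · exact h3
  · intro w hw h1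
    rw [hT'] at hw
    exact hT _ (mem_filter.1 hw).2 (congrArg Sum.inl h1)

end Pad

/-! ### transport -/

theorem ex_map {α Y : Type} [Fintype Y] [Nonempty Y] (S : Finset α) (s : Y → Bool) (b : Bool)
    (h : S.card = nf (fun y => s y = b)) :
    ∃ u : α → Y, (∀ a ∈ S, s (u a) = b) ∧ (∀ a ∈ S, ∀ a' ∈ S, u a = u a' → a = a') ∧
      ∀ y, s y = b → ∃ a ∈ S, u a = y := by
  have e : S ≃ (univ.filter fun y => s y = b : Finset Y) := Finset.equivOfCardEq (by
    rw [h]
    unfold nf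
    congr 1
    ext y
    simp)
  refine ⟨fun a => if h : a ∈ S then (e ⟨a, h⟩).1 else Classical.arbitrary Y, ?_, ?_, ?_⟩
  · intro a ha
    simp only [dif_pos ha]
    exact (mem_filter.1 (e ⟨a, ha⟩).2).2
  · intro a ha a' ha' h1
    simp only [dif_pos ha, dif_pos ha'] at h1
    have := e.injective (Subtype.ext h1)
    exact congrArg Subtype.val this
  · intro y hy
    refine ⟨(e.symm ⟨y, mem_filter.2 ⟨mem_univ y, hy⟩⟩).1, (e.symm ⟨y, mem_filter.2 ⟨mem_univ y, hy⟩⟩).2, ?_⟩
    simp only [dif_pos (e.symm ⟨y, mem_filter.2 ⟨mem_univ y, hy⟩⟩).2]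
    rw [Subtype.coe_eta, Equiv.apply_symm_apply]

theorem sum_ext {p : ℕ} {Y O γ : Type} [Fintype Y] [Fintype O] (m : O → Y → Y) (s : Y → Bool)
    (hs : ∀ o z, m o z ≠ z → s (m o z) ≠ s z) (w : Y) (S : Finset γ) (g : γ → Y)
    (hg1 : ∀ c ∈ S, s (g c) ≠ s w) (hg2 : ∀ c ∈ S, ∀ c' ∈ S, g c = g c' → c = c')
    (hg3 : ∀ y, s y ≠ s w → ∃ c ∈ S, g c = y) (C : O → Prop)
    (h0 : ((nf (fun o => m o w = w ∧ C o) : ℕ) : ZMod p) = 0) :
    ∑ c ∈ S, ((nf (fun o => m o w = g c ∧ C o) : ℕ) : ZMod p) = ((nf C : ℕ) : ZMod p) := by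
  have h1 : nf C = nf (fun o => m o w = w ∧ C o) + ∑ c ∈ S, nf (fun o => m o w = g c ∧ C o) := by
    simp_rw [nf_sum]
    rw [sum_comm, ← sum_add_distrib]
    refine sum_congr rfl fun o _ => ?_
    by_cases hC : C o
    swap
    · rw [if_neg hC, if_neg fun h => hC h.2, zero_add]
      exact (sum_eq_zero fun c _ => if_neg fun h => hC h.2).symm
    rw [if_pos hC]
    by_cases hw : m o w = w
    · rw [if_pos ⟨hw, hC⟩, sum_eq_zero, add_zero]
      intro c hc
      refine if_neg fun h => hg1 c hc ?_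
      rw [← h.1, hw]
    · rw [if_neg fun h => hw h.1, zero_add]
      obtain ⟨c, hc, hcy⟩ := hg3 (m o w) (hs o w hw)
      rw [sum_eq_single_of_mem c hc, if_pos ⟨hcy.symm, hC⟩]
      intro c' hc' hne
      refine if_neg fun h => hne (hg2 c' hc' c hc ?_)
      rw [← h.1, hcy]
  rw [h1, Nat.cast_add, h0, zero_add, Nat.cast_sum]

theorem outB' (p l : ℕ) [Fact p.Prime] : PPh.OutB' p l := by
  intro α β iα iβ A B hB hA
  obtain ⟨X, _, sg, O, _, mu, h⟩ := exists_lev p l
  have hcX : nf (fun x => sg x = true) + nf (fun x => sg x = false) = (p + 2) ^ l := by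
    rw [← h.crd, nf_sum, nf_sum, ← sum_add_distrib]
    have : ∀ x : X, (if sg x = true then 1 else 0) + (if sg x = false then 1 else 0) = 1 := by
      intro x
      cases sg x <;> simp
    rw [sum_congr rfl fun x _ => this x, sum_const, card_univ, smul_eq_mul, mul_one]
  have hdif := h.dif
  obtain ⟨k, hk⟩ : ∃ k, k + nf (fun x => sg x = false) = B.card :=
    ⟨B.card - nf (fun x => sg x = false), by omega⟩
  have hNX : Nonempty (X ⊕ (Fin k × Bool)) := by
    have hp : 0 < p ^ l := pow_pos (Fact.out : p.Prime).pos l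
    by_contra hne
    have h1 : nf (fun x => sg x = true) = 0 := nf_zero fun x _ => hne ⟨Sum.inl x⟩
    omega
  obtain ⟨u, hu1, hu2, hu3⟩ := ex_map A (sgP k sg) true (by rw [pad_cnt]; omega)
  obtain ⟨v, hv1, hv2, hv3⟩ := ex_map B (sgP k sg) false (by rw [pad_cnt]; omega)
  have hzer : ∀ T : Finset (α × β), T.card + 2 ≤ 2 ^ l → T ⊆ A ×ˢ B → ∀ z,
      ((nf (fun o : O => muP k mu o z = z ∧ ∀ t ∈ T, muP k mu o (u t.1) = v t.2) : ℕ) : ZMod p) = 0 := by
    intro T hc hTs z
    rw [← pad_zer (k := k) h (T.image fun t => (u t.1, v t.2)) ?_ (by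
      have := card_image_le (s := T) (f := fun t => (u t.1, v t.2))
      omega) z]
    · congr 1
      refine nf_congr fun o => ?_
      constructor
      · rintro ⟨h1, h2⟩
        refine ⟨h1, fun w hw => ?_⟩
        obtain ⟨t, ht, rfl⟩ := mem_image.1 hw
        exact h2 t ht
      · rintro ⟨h1, h2⟩
        exact ⟨h1, fun t ht => h2 _ (mem_image.2 ⟨t, ht, rfl⟩)⟩
    · intro w hw h1
      obtain ⟨t, ht, rfl⟩ := mem_image.1 hw
      have h2 := mem_product.1 (hTs ht)
      have h3 := hu1 _ h2.1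
      have h1 : u t.1 = v t.2 := h1
      rw [h1, hv1 _ h2.2] at h3
      exact absurd h3 (by simp)
  refine ⟨fun T => if T ⊆ A ×ˢ B then ((nf (fun o : O => ∀ t ∈ T, muP k mu o (u t.1) = v t.2) : ℕ) : ZMod p) else 0,
    ?_, ?_, ?_, ?_, ?_⟩
  · simp only
    rw [if_pos (empty_subset _), nf_true, h.one]
    intro o t ht
    exact absurd ht (notMem_empty t)
  · intro T hT
    simp only
    by_cases hTs : T ⊆ A ×ˢ B
    swap
    · rw [if_neg hTs]
    rw [if_pos hTs, nf_zero, Nat.cast_zero]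
    intro o ho
    apply hT
    intro e he e' he' hor
    have m1 := mem_product.1 (hTs he)
    have m2 := mem_product.1 (hTs he')
    have k1 := ho e he
    have k2 := ho e' he'
    rcases hor with h1 | h1
    · refine Prod.ext h1 (hv2 _ m1.2 _ m2.2 ?_)
      rw [← k1, ← k2, h1]
    · refine Prod.ext (hu2 _ m1.1 _ m2.1 ?_) h1
      rw [← pad_inv h o (u e.1), k1, h1, ← k2, pad_inv h]
  · intro T hT
    by_contra hTs
    exact hT (if_neg hTs)
  · intro T _ hc i hi _ hTs
    simp only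
    rw [if_pos hTs, ← sum_ext (muP k mu) (sgP k sg) (pad_sgn h) (u i) B v (fun c hc => by
      rw [hv1 c hc, hu1 i hi]; simp) hv2 (fun y hy => hv3 y (by
        rw [hu1 i hi] at hy
        simpa using hy)) _ (hzer T hc hTs (u i))]
    refine sum_congr rfl fun j hj => ?_
    rw [if_pos (insert_subset (mem_product.2 ⟨hi, hj⟩) hTs)]
    congr 1
    refine nf_congr fun o => ?_
    constructor
    · intro h1
      exact ⟨h1 _ (mem_insert_self _ _), fun t ht => h1 t (mem_insert_of_mem ht)⟩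
    · rintro ⟨h1, h2⟩ t ht
      rcases mem_insert.1 ht with rfl | ht
      · exact h1
      · exact h2 t ht
  · intro T _ hc j hj _ hTs
    simp only
    rw [if_pos hTs, ← sum_ext (muP k mu) (sgP k sg) (pad_sgn h) (v j) A u (fun c hc => by
      rw [hv1 j hj, hu1 c hc]; simp) hu2 (fun y hy => hu3 y (by
        rw [hv1 j hj] at hy
        simpa using hy)) _ (hzer T hc hTs (v j))]
    refine sum_congr rfl fun i hi => ?_
    rw [if_pos (insert_subset (mem_product.2 ⟨hi, hj⟩) hTs)]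
    congr 1
    refine nf_congr fun o => ?_
    have hsw : muP k mu o (u i) = v j ↔ muP k mu o (v j) = u i :=
      ⟨fun h1 => by rw [← h1, pad_inv h], fun h1 => by rw [← h1, pad_inv h]⟩
    constructor
    · intro h1
      exact ⟨hsw.1 (h1 _ (mem_insert_self _ _)), fun t ht => h1 t (mem_insert_of_mem ht)⟩
    · rintro ⟨h1, h2⟩ t ht
      rcases mem_insert.1 ht with rfl | ht
      · exact hsw.2 h1
      · exact h2 t ht

end Pool.Agent.H84.PP
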