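import Mathlib

/-!
MP_28250c, project PP, block B' (helper84): the small functional.  Objects: involutions of a set of `(p + 2) ^ l` signed
points, built by doubling; modulo `p` they are a doubly stochastic functional of degree `2 ^ l - 1`.
-/

set_option autoImplicit false
set_option linter.unusedSectionVars false

namespace Pool.Agent.H84.PP

open Finset Classical

/-- number of the elements with a property -/
noncomputable def nf {α : Type} [Fintype α] (P : α → Prop) : ℕ := (univ.filter P).card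

theorem mem_nf {α : Type} [Fintype α] {P : α → Prop} {inst : DecidablePred P} {a : α} :
    a ∈ @filter α P inst univ ↔ P a := by
  rw [@mem_filter]
  exact ⟨fun h => h.2, fun h => ⟨mem_univ a, h⟩⟩

theorem nf_congr {α : Type} [Fintype α] {P Q : α → Prop} (h : ∀ a, P a ↔ Q a) : nf P = nf Q := by
  have : P = Q := funext fun a => propext (h a)
  rw [this]

theorem nf_zero {α : Type} [Fintype α] {P : α → Prop} (h : ∀ a, ¬ P a) : nf P = 0 := by
  unfold nf
  rw [card_eq_zero, filter_eq_empty_iff]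
  exact fun a _ => h a

theorem nf_true {α : Type} [Fintype α] {P : α → Prop} (h : ∀ a, P a) : nf P = Fintype.card α := by
  unfold nf
  rw [filter_true_of_mem fun a _ => h a, card_univ]

theorem nf_sum {α : Type} [Fintype α] (P : α → Prop) [DecidablePred P] : nf P = ∑ a, if P a then 1 else 0 := by
  unfold nf
  rw [card_filter]
  refine sum_congr rfl fun a _ => ?_
  by_cases h : P a
  · rw [if_pos h, if_pos h]
  · rw [if_neg h, if_neg h]

/-! ## Invariant functions of an involution -/

theorem inv_card {X C : Type} [Fintype X] [LinearOrder X] [Fintype C] [DecidableEq C] [F : Fintype (X → C)] (mu : X → X) (hmu : ∀ x, mu (mu x) = x)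
    (A : X → Finset C) :
    nf (fun Q : X → C => (∀ x, Q (mu x) = Q x) ∧ ∀ x, Q x ∈ A x) =
      ∏ y ∈ univ.filter (fun y => y ≤ mu y), (A y ∩ A (mu y)).card := by
  unfold nf
  have h1 : ∏ y ∈ univ.filter (fun y => y ≤ mu y), (A y ∩ A (mu y)).card =
      ∏ y : {y // y ≤ mu y}, (A y ∩ A (mu y)).card := by
    refine prod_subtype _ (fun y => ?_) _
    simp
  rw [h1, ← Fintype.card_piFinset]
  refine card_bij (fun Q _ y => Q y) ?_ ?_ ?_
  · intro Q hQ
    obtain ⟨h2, h3⟩ := mem_nf.1 hQ
    rw [Fintype.mem_piFinset]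
    intro y
    rw [mem_inter]
    refine ⟨h3 y, ?_⟩
    have := h3 (mu y)
    rwa [h2] at this
  · intro Q hQ Q' hQ' h
    obtain ⟨h2, -⟩ := mem_nf.1 hQ
    obtain ⟨h2', -⟩ := mem_nf.1 hQ'
    funext x
    by_cases hx : x ≤ mu x
    · exact congrFun h ⟨x, hx⟩
    · have hx' : mu x ≤ mu (mu x) := by
        rw [hmu]
        exact (not_le.1 hx).le
      have := congrFun h ⟨mu x, hx'⟩
      simp only at this
      rwa [h2, h2'] at this
  · intro g hg
    rw [Fintype.mem_piFinset] at hg
    have hx' : ∀ x, ¬ x ≤ mu x → mu x ≤ mu (mu x) := by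
      intro x hx
      rw [hmu]
      exact (not_le.1 hx).le
    refine ⟨fun x => if h : x ≤ mu x then g ⟨x, h⟩ else g ⟨mu x, hx' x h⟩, mem_nf.2 ⟨?_, ?_⟩, ?_⟩
    · intro x
      by_cases h : x ≤ mu x
      · rw [dif_pos h]
        by_cases h2 : mu x ≤ mu (mu x)
        · rw [dif_pos h2]
          have h3 : mu x = x := le_antisymm (by rwa [hmu] at h2) h
          congr 1
          exact Subtype.ext h3
        · rw [dif_neg h2]
          congr 1
          exact Subtype.ext (hmu x)
      · rw [dif_neg h, dif_pos (hx' x h)]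
    · intro x
      by_cases h : x ≤ mu x
      · rw [dif_pos h]
        exact (mem_inter.1 (hg ⟨x, h⟩)).1
      · rw [dif_neg h]
        have := (mem_inter.1 (hg ⟨mu x, hx' x h⟩)).2
        simp only [hmu] at this
        exact this
    · funext y
      simp only
      rw [dif_pos y.2]

/-! ## The objects -/

/-- objects of level `l`: `O` indexes involutions `mu o` of the signed points `X` -/
structure Lev (p l : ℕ) (X : Type) [Fintype X] (sg : X → Bool) (O : Type) [Fintype O] (mu : O → X → X) : Prop where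
  inv : ∀ o x, mu o (mu o x) = x
  sgn : ∀ o x, mu o x ≠ x → sg (mu o x) ≠ sg x
  crd : Fintype.card X = (p + 2) ^ l
  dif : nf (fun x => sg x = true) = nf (fun x => sg x = false) + p ^ l
  one : (Fintype.card O : ZMod p) = 1
  zer : ∀ T : Finset (X × X), (∀ t ∈ T, t.1 ≠ t.2) → T.card + 2 ≤ 2 ^ l → ∀ x,
    ((nf (fun o : O => mu o x = x ∧ ∀ t ∈ T, mu o t.1 = t.2) : ℕ) : ZMod p) = 0

section Step

variable {p l : ℕ} {X : Type} [Fintype X] {sg : X → Bool} {O : Type} [Fintype O] {mu : O → X → X}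

/-- the new objects -/
abbrev O' (p : ℕ) (mu : O → X → X) : Type := {oq : O × (X → Fin (p + 1)) // ∀ x, oq.2 (mu oq.1 x) = oq.2 x}

/-- the new involution -/
def mu' (p : ℕ) (mu : O → X → X) (o : O' p mu) (z : X × Option (Fin (p + 1))) : X × Option (Fin (p + 1)) :=
  match z.2 with
  | none => (z.1, some (o.1.2 z.1))
  | some c => if o.1.2 z.1 = c then (z.1, none) else (mu o.1.1 z.1, some c)

/-- the new sign -/
def sg' (p : ℕ) (sg : X → Bool) (z : X × Option (Fin (p + 1))) : Bool :=
  match z.2 with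
  | none => !(sg z.1)
  | some _ => sg z.1

/-- the allowed values -/
noncomputable def al (p : ℕ) (t : (X × Option (Fin (p + 1))) × (X × Option (Fin (p + 1)))) : Finset (Fin (p + 1)) :=
  univ.filter (fun c => (t.1.2 = none ∧ t.2.1 = t.1.1 ∧ t.2.2 = some c) ∨
    (t.1.2 = some c ∧ t.2.1 = t.1.1 ∧ t.2.2 = none) ∨
    (∃ α, t.1.2 = some α ∧ c ≠ α ∧ t.2.2 = some α ∧ t.2.1 ≠ t.1.1))

theorem mu'_iff (o : O' p mu) (t : (X × Option (Fin (p + 1))) × (X × Option (Fin (p + 1)))) (ht : t.1 ≠ t.2) :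
    mu' p mu o t.1 = t.2 ↔ o.1.2 t.1.1 ∈ al p t ∧ (t.2.1 ≠ t.1.1 → mu o.1.1 t.1.1 = t.2.1) := by
  obtain ⟨⟨y, a⟩, ⟨z, b⟩⟩ := t
  simp only [al, mem_filter, mem_univ, true_and] at ht ⊢
  cases a with
  | none =>
    show ((y, some (o.1.2 y)) : X × Option (Fin (p + 1))) = (z, b) ↔ _
    constructor
    · intro h
      obtain ⟨h1, h2⟩ := Prod.ext_iff.1 h
      simp only at h1 h2
      exact ⟨Or.inl ⟨rfl, h1.symm, h2.symm⟩, fun h3 => absurd h1.symm h3⟩
    · rintro ⟨h1 | h1 | ⟨α, h1, -⟩, -⟩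
      · rw [h1.2.1, h1.2.2]
      · exact absurd h1.1 (by simp)
      · exact absurd h1 (by simp)
  | some α =>
    show (if o.1.2 y = α then ((y, none) : X × Option (Fin (p + 1))) else (mu o.1.1 y, some α)) = (z, b) ↔ _
    by_cases hc : o.1.2 y = α
    · rw [if_pos hc]
      constructor
      · intro h
        obtain ⟨h1, h2⟩ := Prod.ext_iff.1 h
        simp only at h1 h2
        exact ⟨Or.inr (Or.inl ⟨by rw [hc], h1.symm, h2.symm⟩), fun h3 => absurd h1.symm h3⟩
      · rintro ⟨h1 | h1 | ⟨β, h1, h2, -⟩, -⟩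
        · exact absurd h1.1 (by simp)
        · rw [h1.2.1, h1.2.2]
        · exact absurd (hc.trans (Option.some.inj h1)) h2
    · rw [if_neg hc]
      constructor
      · intro h
        obtain ⟨h1, h2⟩ := Prod.ext_iff.1 h
        simp only at h1 h2
        have hzy : z ≠ y := by
          intro e
          exact ht (by rw [e, ← h2])
        exact ⟨Or.inr (Or.inr ⟨α, rfl, hc, h2.symm, hzy⟩), fun _ => h1⟩
      · rintro ⟨h1 | h1 | ⟨β, h1, h2, h3, h4⟩, h5⟩
        · exact absurd h1.1 (by simp)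
        · exact absurd (Option.some.inj h1.1).symm hc
        · rw [h5 h4, h3, h1]

theorem al_vert (t : (X × Option (Fin (p + 1))) × (X × Option (Fin (p + 1)))) (ht : t.1 ≠ t.2)
    (hv : t.2.1 = t.1.1) : (al p t).card ≤ 1 := by
  rw [card_le_one]
  intro c hc c' hc'
  obtain ⟨⟨y, a⟩, ⟨z, b⟩⟩ := t
  simp only [al, mem_filter, mem_univ, true_and] at ht hv hc hc'
  rcases hc with h1 | h1 | ⟨β, -, -, -, h1⟩
  · rcases hc' with h2 | h2 | ⟨β, -, -, -, h2⟩
    · exact Option.some.inj (h1.2.2.symm.trans h2.2.2)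
    · exact absurd (h1.1.symm.trans h2.1) (by simp)
    · exact absurd hv h2
  · rcases hc' with h2 | h2 | ⟨β, -, -, -, h2⟩
    · exact absurd (h1.1.symm.trans h2.1) (by simp)
    · exact Option.some.inj (h1.1.symm.trans h2.1)
    · exact absurd hv h2
  · exact absurd hv h1

theorem al_hor (t : (X × Option (Fin (p + 1))) × (X × Option (Fin (p + 1)))) (hv : t.2.1 ≠ t.1.1) :
    (((al p t).card : ℕ) : ZMod p) = 0 := by
  obtain ⟨⟨y, a⟩, ⟨z, b⟩⟩ := t
  simp only at hv
  by_cases h : ∃ α, a = some α ∧ b = some α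
  · obtain ⟨α, rfl, rfl⟩ := h
    have : al p ((y, some α), (z, some α)) = univ.erase α := by
      ext c
      simp only [al, mem_filter, mem_univ, true_and, mem_erase, and_true]
      constructor
      · rintro (h1 | h1 | ⟨β, h1, h2, -⟩)
        · exact absurd h1.1 (by simp)
        · exact absurd h1.2.1 hv
        · rw [Option.some.inj h1]; exact h2
      · intro h1
        exact Or.inr (Or.inr ⟨α, rfl, h1, rfl, hv⟩)
    rw [this, card_erase_of_mem (mem_univ α), card_univ, Fintype.card_fin, Nat.add_sub_cancel]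
    exact CharP.cast_eq_zero (ZMod p) p
  · have : al p ((y, a), (z, b)) = ∅ := by
      refine filter_eq_empty_iff.2 fun c _ => ?_
      rintro (h1 | h1 | ⟨β, h1, -, h2, -⟩)
      · exact hv h1.2.1
      · exact hv h1.2.1
      · exact h ⟨β, h1, h2⟩
    rw [this, card_empty, Nat.cast_zero]

/-! ### the constraints -/

section Core

variable [LinearOrder X] (T : Finset ((X × Option (Fin (p + 1))) × (X × Option (Fin (p + 1))))) (x : X)
  (i : Fin (p + 1))

/-- the allowed values at `y` -/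
noncomputable def AA (y : X) : Finset (Fin (p + 1)) :=
  univ.filter (fun c => (∀ t ∈ T, t.1.1 = y → c ∈ al p t) ∧ (y = x → c ≠ i))

/-- the pairs at `y` -/
noncomputable def TT (y : X) : Finset ((X × Option (Fin (p + 1))) × (X × Option (Fin (p + 1)))) :=
  T.filter (fun t => t.1.1 = y)

/-- the points of the horizontal pairs -/
noncomputable def ZZ : Finset X := univ.filter (fun y => ∃ t ∈ T, t.2.1 ≠ t.1.1 ∧ (y = t.1.1 ∨ y = t.2.1))

/-- the other points with a pair -/
noncomputable def YY : Finset X := univ.filter (fun y => y ∉ ZZ T ∧ y ≠ x ∧ (TT T y).Nonempty)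

/-- the valid objects -/
noncomputable def VV (mu : O → X → X) : Finset O :=
  univ.filter (fun o => mu o x = x ∧ ∀ t ∈ T, t.2.1 ≠ t.1.1 → mu o t.1.1 = t.2.1)

/-- the bad pairs -/
noncomputable def EE : Finset (X × X) := (YY T x ×ˢ YY T x).filter (fun e => e.1 < e.2 ∧ AA T x i e.1 ∩ AA T x i e.2 = ∅)

variable {T x i}

theorem vz_eq (hinv : ∀ o x, mu o (mu o x) = x) {o o' : O} (ho : o ∈ VV T x mu) (ho' : o' ∈ VV T x mu) {y : X}
    (hy : y ∈ ZZ T) : mu o y = mu o' y := by
  obtain ⟨-, h1, h2⟩ := mem_filter.1 ho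
  obtain ⟨-, h1', h2'⟩ := mem_filter.1 ho'
  obtain ⟨-, t, ht, hh, rfl | rfl⟩ := mem_filter.1 hy
  · rw [h2 t ht hh, h2' t ht hh]
  · have e : mu o t.2.1 = t.1.1 := by rw [← h2 t ht hh, hinv]
    have e' : mu o' t.2.1 = t.1.1 := by rw [← h2' t ht hh, hinv]
    rw [e, e']

theorem vz_mem (hinv : ∀ o x, mu o (mu o x) = x) {o : O} (ho : o ∈ VV T x mu) {y : X}
    (hy : y ∈ ZZ T) : mu o y ∈ ZZ T ∧ mu o y ≠ y := by
  obtain ⟨-, h1, h2⟩ := mem_filter.1 ho
  obtain ⟨-, t, ht, hh, rfl | rfl⟩ := mem_filter.1 hy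
  · rw [h2 t ht hh]
    exact ⟨mem_filter.2 ⟨mem_univ _, t, ht, hh, Or.inr rfl⟩, hh⟩
  · have e : mu o t.2.1 = t.1.1 := by rw [← h2 t ht hh, hinv]
    rw [e]
    exact ⟨mem_filter.2 ⟨mem_univ _, t, ht, hh, Or.inl rfl⟩, hh.symm⟩

theorem vz_mem' (hinv : ∀ o x, mu o (mu o x) = x) {o : O} (ho : o ∈ VV T x mu) {y : X}
    (hy : mu o y ∈ ZZ T) : y ∈ ZZ T := by
  have := (vz_mem hinv ho hy).1
  rwa [hinv] at this

theorem x_notZ (hinv : ∀ o x, mu o (mu o x) = x) {o : O} (ho : o ∈ VV T x mu) : x ∉ ZZ T := fun h =>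
  (vz_mem hinv ho h).2 (mem_filter.1 ho).2.1

/-- the value of a product -/
noncomputable def ph (T : Finset ((X × Option (Fin (p + 1))) × (X × Option (Fin (p + 1))))) (x : X)
    (i : Fin (p + 1)) (mu : O → X → X) (o : O) (y : X) : ZMod p :=
  (((AA T x i y ∩ AA T x i (mu o y)).card : ℕ) : ZMod p)

theorem ph_ne (hinv : ∀ o x, mu o (mu o x) = x) {o : O}
    (h : ∏ y ∈ univ.filter (fun y => y ≤ mu o y), ph T x i mu o y ≠ 0) (y : X) : ph T x i mu o y ≠ 0 := by
  intro h0
  by_cases hy : y ≤ mu o y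
  · exact h (prod_eq_zero (mem_filter.2 ⟨mem_univ y, hy⟩) h0)
  · refine h (prod_eq_zero (i := mu o y) (mem_filter.2 ⟨mem_univ _, ?_⟩) ?_)
    · rw [hinv]
      exact (not_le.1 hy).le
    · unfold ph at h0 ⊢
      rw [hinv, inter_comm]
      exact h0

theorem card_AA_one (hd : ∀ t ∈ T, t.1 ≠ t.2) {o : O} (h : ∀ y, ph T x i mu o y ≠ 0) {y : X} (hy : y ∈ YY T x) :
    (AA T x i y).card = 1 := by
  obtain ⟨-, h1, h2, t, ht⟩ := mem_filter.1 hy
  obtain ⟨ht1, ht2⟩ := mem_filter.1 ht
  have hv : t.2.1 = t.1.1 := by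
    by_contra hv
    exact h1 (mem_filter.2 ⟨mem_univ _, t, ht1, hv, Or.inl ht2.symm⟩)
  have h3 : (AA T x i y).card ≤ 1 := by
    refine le_trans (card_le_card fun c hc => ?_) (al_vert t (hd t ht1) hv)
    exact (mem_filter.1 hc).2.1 t ht1 ht2
  have h4 : (AA T x i y).Nonempty := by
    by_contra h5
    rw [not_nonempty_iff_eq_empty] at h5
    refine h y ?_
    unfold ph
    rw [h5, empty_inter, card_empty, Nat.cast_zero]
  have := card_pos.2 h4
  omega

theorem AA_univ {y : X} (h1 : ¬ (TT T y).Nonempty) (h2 : y ≠ x) : AA T x i y = univ := by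
  refine filter_true_of_mem fun c _ => ⟨fun t ht hty => ?_, fun h => absurd h h2⟩
  exact absurd ⟨t, mem_filter.2 ⟨ht, hty⟩⟩ h1

theorem card_T (hinv : ∀ o x, mu o (mu o x) = x) (_hd : ∀ t ∈ T, t.1 ≠ t.2) {o : O} (ho : o ∈ VV T x mu)
    (h : ∀ y, ph T x i mu o y ≠ 0) : 1 + (ZZ T).card + (YY T x).card ≤ T.card := by
  obtain ⟨-, hx, hho⟩ := mem_filter.1 ho
  have hsum : T.card = ∑ y : X, (TT T y).card := card_eq_sum_card_fiberwise (fun t _ => mem_univ t.1.1)
  have h1 : 1 ≤ (TT T x).card := by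
    rw [Nat.one_le_iff_ne_zero]
    intro h0
    rw [card_eq_zero] at h0
    refine h x ?_
    unfold ph
    rw [hx, inter_self]
    have : AA T x i x = univ.erase i := by
      ext c
      simp only [AA, mem_filter, mem_univ, true_and, mem_erase, and_true, forall_const]
      constructor
      · exact fun h => h.2
      · intro h3
        refine ⟨fun t ht hty => ?_, h3⟩
        have : t ∈ TT T x := mem_filter.2 ⟨ht, hty⟩
        rw [h0] at this
        exact absurd this (notMem_empty t)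
    rw [this, card_erase_of_mem (mem_univ i), card_univ, Fintype.card_fin, Nat.add_sub_cancel]
    exact CharP.cast_eq_zero (ZMod p) p
  have h2 : (YY T x).card ≤ ∑ y ∈ YY T x, (TT T y).card := by
    rw [card_eq_sum_ones]
    refine sum_le_sum fun y hy => ?_
    exact card_pos.2 (mem_filter.1 hy).2.2.2
  have h3 : (ZZ T).card ≤ ∑ y ∈ ZZ T, (TT T y).card := by
    have e1 : ∑ y ∈ ZZ T, (TT T (mu o y)).card = ∑ y ∈ ZZ T, (TT T y).card := by
      refine sum_nbij' (fun y => mu o y) (fun y => mu o y) ?_ ?_ ?_ ?_ ?_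
      · exact fun y hy => (vz_mem hinv ho hy).1
      · exact fun y hy => (vz_mem hinv ho hy).1
      · exact fun y _ => hinv o y
      · exact fun y _ => hinv o y
      · exact fun y _ => rfl
    have e2 : ∀ y ∈ ZZ T, 2 ≤ (TT T y).card + (TT T (mu o y)).card := by
      intro y hy
      by_contra hc
      have hmem : ∀ t, t ∈ TT T y ∨ t ∈ TT T (mu o y) → t ∈ TT T y ∪ TT T (mu o y) := fun t ht => mem_union.2 ht
      have hcu : (TT T y ∪ TT T (mu o y)).card ≤ 1 := by
        have := card_union_le (TT T y) (TT T (mu o y))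
        omega
      obtain ⟨-, t, ht, hh, hyt⟩ := mem_filter.1 hy
      have hmt : mu o t.1.1 = t.2.1 := hho t ht hh
      have hmt' : mu o t.2.1 = t.1.1 := by rw [← hmt, hinv]
      have htm : t ∈ TT T y ∪ TT T (mu o y) := by
        rcases hyt with h4 | h4
        · exact hmem t (Or.inl (mem_filter.2 ⟨ht, h4.symm⟩))
        · refine hmem t (Or.inr (mem_filter.2 ⟨ht, ?_⟩))
          rw [h4, hmt']
      have huniq : ∀ t' ∈ T, t'.1.1 = y ∨ t'.1.1 = mu o y → t' = t := by
        intro t' ht' h5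
        refine card_le_one.1 hcu t' (hmem t' ?_) t htm
        rcases h5 with h5 | h5
        · exact Or.inl (mem_filter.2 ⟨ht', h5⟩)
        · exact Or.inr (mem_filter.2 ⟨ht', h5⟩)
      have hyx : y ≠ x := fun e => x_notZ hinv ho (e ▸ hy)
      have hmyx : mu o y ≠ x := fun e => x_notZ hinv ho (e ▸ (vz_mem hinv ho hy).1)
      have hA : AA T x i y ∩ AA T x i (mu o y) = al p t := by
        ext c
        rw [mem_inter]
        simp only [AA, mem_filter, mem_univ, true_and]
        constructor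
        · rintro ⟨⟨h5, -⟩, ⟨h6, -⟩⟩
          rcases hyt with h4 | h4
          · exact h5 t ht h4.symm
          · refine h6 t ht ?_
            rw [h4, hmt']
        · intro h5
          refine ⟨⟨fun t' ht' h6 => ?_, fun h6 => absurd h6 hyx⟩, ⟨fun t' ht' h6 => ?_, fun h6 => absurd h6 hmyx⟩⟩
          · rw [huniq t' ht' (Or.inl h6)]; exact h5
          · rw [huniq t' ht' (Or.inr h6)]; exact h5
      refine h y ?_
      unfold ph
      rw [hA]
      exact al_hor t hh
    have e3 : ∑ _y ∈ ZZ T, 2 ≤ ∑ y ∈ ZZ T, ((TT T y).card + (TT T (mu o y)).card) := sum_le_sum e2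
    rw [sum_add_distrib, e1, sum_const, smul_eq_mul] at e3
    omega
  -- put together
  have hxZ := x_notZ hinv ho
  have hdis : Disjoint (ZZ T) (YY T x) := by
    rw [disjoint_left]
    intro y hy hy'
    exact (mem_filter.1 hy').2.1 hy
  have hxn : x ∉ ZZ T ∪ YY T x := by
    rw [mem_union]
    rintro (h4 | h4)
    · exact hxZ h4
    · exact (mem_filter.1 h4).2.2.1 rfl
  have h4 : ∑ y ∈ insert x (ZZ T ∪ YY T x), (TT T y).card ≤ ∑ y : X, (TT T y).card :=
    sum_le_sum_of_subset (subset_univ _)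
  rw [sum_insert hxn, sum_union hdis] at h4
  omega

theorem prod_eq (hinv : ∀ o x, mu o (mu o x) = x) (hd : ∀ t ∈ T, t.1 ≠ t.2) {o0 : O} (ho0 : o0 ∈ VV T x mu)
    (h : ∀ y, ph T x i mu o0 y ≠ 0) {o : O} (ho : o ∈ VV T x mu) :
    ∏ y ∈ univ.filter (fun y => y ≤ mu o y), ph T x i mu o y =
      (∏ y ∈ univ.filter (fun y => y ≤ mu o0 y ∧ (y ∈ ZZ T ∨ y = x)), ph T x i mu o0 y) *
      ∏ e ∈ EE T x i, (1 + -(if mu o e.1 = e.2 then (1 : ZMod p) else 0)) := by
  obtain ⟨-, hx, -⟩ := mem_filter.1 ho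
  obtain ⟨-, hx0, -⟩ := mem_filter.1 ho0
  by_cases hb : ∃ e ∈ EE T x i, mu o e.1 = e.2
  · obtain ⟨e, he, hme⟩ := hb
    obtain ⟨-, h1, h2⟩ := mem_filter.1 he
    rw [prod_eq_zero (i := e.1) (mem_filter.2 ⟨mem_univ _, by rw [hme]; exact h1.le⟩) (by
      unfold ph
      rw [hme, h2, card_empty, Nat.cast_zero])]
    rw [prod_eq_zero he (by rw [if_pos hme]; ring), mul_zero]
  · have h1 : ∏ e ∈ EE T x i, (1 + -(if mu o e.1 = e.2 then (1 : ZMod p) else 0)) = 1 := by
      refine prod_eq_one fun e he => ?_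
      rw [if_neg fun h2 => hb ⟨e, he, h2⟩]
      ring
    rw [h1, mul_one]
    have hmu : ∀ y, (y ∈ ZZ T ∨ y = x) → mu o y = mu o0 y := by
      rintro y (hy | rfl)
      · exact vz_eq hinv ho ho0 hy
      · rw [hx, hx0]
    have h2 : ∏ y ∈ univ.filter (fun y => y ≤ mu o0 y ∧ (y ∈ ZZ T ∨ y = x)), ph T x i mu o0 y =
        ∏ y ∈ univ.filter (fun y => y ≤ mu o y ∧ (y ∈ ZZ T ∨ y = x)), ph T x i mu o y := by
      have e : univ.filter (fun y => y ≤ mu o0 y ∧ (y ∈ ZZ T ∨ y = x)) =
          univ.filter (fun y => y ≤ mu o y ∧ (y ∈ ZZ T ∨ y = x)) := by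
        refine filter_congr fun y _ => ?_
        constructor
        · rintro ⟨h3, h4⟩; exact ⟨by rw [hmu y h4]; exact h3, h4⟩
        · rintro ⟨h3, h4⟩; exact ⟨by rw [← hmu y h4]; exact h3, h4⟩
      rw [e]
      refine prod_congr rfl fun y hy => ?_
      unfold ph
      rw [hmu y (mem_filter.1 hy).2.2]
    rw [h2]
    symm
    refine prod_subset (fun y hy => ?_) (fun y hy hy' => ?_)
    · exact mem_filter.2 ⟨mem_univ y, (mem_filter.1 hy).2.1⟩
    · have hyR := (mem_filter.1 hy).2
      have hyZ : y ∉ ZZ T := fun h3 => hy' (mem_filter.2 ⟨mem_univ y, hyR, Or.inl h3⟩)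
      have hyx : y ≠ x := fun h3 => hy' (mem_filter.2 ⟨mem_univ y, hyR, Or.inr h3⟩)
      have hmZ : mu o y ∉ ZZ T := fun h3 => hyZ (vz_mem' hinv ho h3)
      have hmx : mu o y ≠ x := by
        intro h3
        apply hyx
        have := hinv o y
        rw [h3, hx] at this
        exact this.symm
      have hp1 : (((p + 1 : ℕ)) : ZMod p) = 1 := by
        rw [Nat.cast_add, Nat.cast_one, CharP.cast_eq_zero (ZMod p) p, zero_add]
      unfold ph
      by_cases c1 : (TT T y).Nonempty
      · have hyY : y ∈ YY T x := mem_filter.2 ⟨mem_univ y, hyZ, hyx, c1⟩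
        have k1 := card_AA_one hd h hyY
        by_cases c2 : (TT T (mu o y)).Nonempty
        · have hmY : mu o y ∈ YY T x := mem_filter.2 ⟨mem_univ _, hmZ, hmx, c2⟩
          by_cases c3 : mu o y = y
          · rw [c3, inter_self, k1, Nat.cast_one]
          · have hlt : y < mu o y := lt_of_le_of_ne hyR fun e => c3 e.symm
            have hne : AA T x i y ∩ AA T x i (mu o y) ≠ ∅ := fun h3 =>
              hb ⟨(y, mu o y), mem_filter.2 ⟨mem_product.2 ⟨hyY, hmY⟩, hlt, h3⟩, rfl⟩
            have k2 : (AA T x i y ∩ AA T x i (mu o y)).card = 1 := by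
              have k3 := card_le_card (inter_subset_left (s₁ := AA T x i y) (s₂ := AA T x i (mu o y)))
              have k4 := card_pos.2 (nonempty_iff_ne_empty.2 hne)
              omega
            rw [k2, Nat.cast_one]
        · rw [AA_univ c2 hmx, inter_univ, k1, Nat.cast_one]
      · rw [AA_univ c1 hyx, univ_inter]
        by_cases c2 : (TT T (mu o y)).Nonempty
        · have hmY : mu o y ∈ YY T x := mem_filter.2 ⟨mem_univ _, hmZ, hmx, c2⟩
          rw [card_AA_one hd h hmY, Nat.cast_one]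
        · rw [AA_univ c2 hmx, card_univ, Fintype.card_fin, hp1]

theorem core (hinv : ∀ o x, mu o (mu o x) = x) (hz : ∀ T : Finset (X × X), (∀ t ∈ T, t.1 ≠ t.2) →
    T.card + 2 ≤ 2 ^ l → ∀ x,
    ((nf (fun o : O => mu o x = x ∧ ∀ t ∈ T, mu o t.1 = t.2) : ℕ) : ZMod p) = 0)
    (hd : ∀ t ∈ T, t.1 ≠ t.2) (hT : T.card + 2 ≤ 2 ^ (l + 1)) :
    ∑ o ∈ VV T x mu, ∏ y ∈ univ.filter (fun y => y ≤ mu o y), ph T x i mu o y = 0 := by
  by_cases hne : ∃ o ∈ VV T x mu, ∏ y ∈ univ.filter (fun y => y ≤ mu o y), ph T x i mu o y ≠ 0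
  swap
  · refine sum_eq_zero fun o ho => ?_
    by_contra h
    exact hne ⟨o, ho, h⟩
  obtain ⟨o0, ho0, h0⟩ := hne
  have h := ph_ne hinv h0
  have hcard := card_T hinv hd ho0 h
  rw [sum_congr rfl fun o ho => prod_eq hinv hd ho0 h ho, ← mul_sum]
  refine mul_eq_zero_of_right _ ?_
  simp_rw [prod_add]
  rw [sum_comm]
  refine sum_eq_zero fun S hS => ?_
  rw [mem_powerset] at hS
  -- the complement B of S is where the factor `-[..]` is taken
  have hB : ∀ B ⊆ EE T x i, (((VV T x mu).filter (fun o => ∀ e ∈ B, mu o e.1 = e.2)).card : ZMod p) = 0 := by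
    intro B hBE
    by_cases hemp : ((VV T x mu).filter (fun o => ∀ e ∈ B, mu o e.1 = e.2)).Nonempty
    swap
    · rw [not_nonempty_iff_eq_empty.1 hemp, card_empty, Nat.cast_zero]
    obtain ⟨o1, ho1⟩ := hemp
    obtain ⟨ho1V, ho1B⟩ := mem_filter.1 ho1
    obtain ⟨E1, hE1⟩ : ∃ E1 : Finset (X × X), E1 = ((ZZ T).filter (fun y => y < mu o0 y)).image
      (fun y => (y, mu o0 y)) := ⟨_, rfl⟩
    have hfil : ((VV T x mu).filter (fun o => ∀ e ∈ B, mu o e.1 = e.2)).card =
        nf (fun o : O => mu o x = x ∧ ∀ t ∈ E1 ∪ B, mu o t.1 = t.2) := by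
      unfold nf
      congr 1
      ext o
      rw [mem_filter, mem_nf]
      constructor
      · rintro ⟨ho, hoB⟩
        refine ⟨(mem_filter.1 ho).2.1, fun t ht => ?_⟩
        rcases mem_union.1 ht with h1 | h1
        · rw [hE1] at h1
          obtain ⟨y, hy, rfl⟩ := mem_image.1 h1
          exact vz_eq hinv ho ho0 (mem_filter.1 hy).1
        · exact hoB t h1
      · rintro ⟨hox, hoT⟩
        refine ⟨mem_filter.2 ⟨mem_univ o, hox, fun t ht hh => ?_⟩, fun e he => hoT e (mem_union_right _ he)⟩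
        have e1 : mu o0 t.1.1 = t.2.1 := (mem_filter.1 ho0).2.2 t ht hh
        have e2 : mu o0 t.2.1 = t.1.1 := by rw [← e1, hinv]
        have z1 : t.1.1 ∈ ZZ T := mem_filter.2 ⟨mem_univ _, t, ht, hh, Or.inl rfl⟩
        have z2 : t.2.1 ∈ ZZ T := mem_filter.2 ⟨mem_univ _, t, ht, hh, Or.inr rfl⟩
        rcases lt_or_gt_of_ne hh with h1 | h1
        · have : mu o t.2.1 = t.1.1 := by
            refine hoT (t.2.1, t.1.1) (mem_union_left _ ?_)
            rw [hE1]
            exact mem_image.2 ⟨t.2.1, mem_filter.2 ⟨z2, by rw [e2]; exact h1⟩, by rw [e2]⟩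
          rw [← this, hinv]
        · refine hoT (t.1.1, t.2.1) (mem_union_left _ ?_)
          rw [hE1]
          exact mem_image.2 ⟨t.1.1, mem_filter.2 ⟨z1, by rw [e1]; exact h1⟩, by rw [e1]⟩
    rw [hfil]
    refine hz _ ?_ ?_ x
    · intro t ht
      rcases mem_union.1 ht with h1 | h1
      · rw [hE1] at h1
        obtain ⟨y, hy, rfl⟩ := mem_image.1 h1
        exact (mem_filter.1 hy).2.ne
      · exact (mem_filter.1 (hBE h1)).2.1.ne
    · have c1 : 2 * E1.card ≤ (ZZ T).card := by
        have a1 : E1.card ≤ ((ZZ T).filter (fun y => y < mu o0 y)).card := by rw [hE1]; exact card_image_le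
        have a2 : ((ZZ T).filter (fun y => y < mu o0 y)).card = ((ZZ T).filter (fun y => ¬ y < mu o0 y)).card := by
          refine card_nbij' (fun y => mu o0 y) (fun y => mu o0 y) ?_ ?_ ?_ ?_
          · intro y hy
            obtain ⟨hy1, hy2⟩ := mem_filter.1 hy
            refine mem_filter.2 ⟨(vz_mem hinv ho0 hy1).1, ?_⟩
            rw [hinv]
            exact not_lt.2 hy2.le
          · intro y hy
            obtain ⟨hy1, hy2⟩ := mem_filter.1 hy
            refine mem_filter.2 ⟨(vz_mem hinv ho0 hy1).1, ?_⟩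
            rw [hinv]
            exact lt_of_le_of_ne (not_lt.1 hy2) (vz_mem hinv ho0 hy1).2
          · exact fun y _ => hinv o0 y
          · exact fun y _ => hinv o0 y
        have a3 := card_filter_add_card_filter_not (s := ZZ T) (fun y => y < mu o0 y)
        omega
      have c2 : 2 * B.card ≤ (YY T x).card := by
        have a1 : (B.image Prod.fst).card = B.card := by
          refine card_image_of_injOn fun e he e' he' h1 => ?_
          have k1 := ho1B e he
          have k2 := ho1B e' he'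
          have h1 : e.1 = e'.1 := h1
          refine Prod.ext h1 ?_
          rw [← k1, ← k2, h1]
        have a2 : (B.image Prod.snd).card = B.card := by
          refine card_image_of_injOn fun e he e' he' h1 => ?_
          have k1 := ho1B e he
          have k2 := ho1B e' he'
          have h1 : e.2 = e'.2 := h1
          refine Prod.ext ?_ h1
          rw [← hinv o1 e.1, k1, h1, ← k2, hinv]
        have a3 : Disjoint (B.image Prod.fst) (B.image Prod.snd) := by
          rw [disjoint_left]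
          intro y hy hy'
          obtain ⟨e, he, rfl⟩ := mem_image.1 hy
          obtain ⟨e', he', h1⟩ := mem_image.1 hy'
          have k1 := ho1B e he
          have k2 := ho1B e' he'
          have l1 := (mem_filter.1 (hBE he)).2.1
          have l2 := (mem_filter.1 (hBE he')).2.1
          have k3 : e'.1 = e.2 := by
            rw [← hinv o1 e'.1, k2, h1, k1]
          rw [k3, h1] at l2
          exact absurd l1 (not_lt.2 l2.le)
        have a4 : B.image Prod.fst ∪ B.image Prod.snd ⊆ YY T x := by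
          intro y hy
          rcases mem_union.1 hy with h1 | h1
          · obtain ⟨e, he, rfl⟩ := mem_image.1 h1
            exact (mem_product.1 (mem_filter.1 (hBE he)).1).1
          · obtain ⟨e, he, rfl⟩ := mem_image.1 h1
            exact (mem_product.1 (mem_filter.1 (hBE he)).1).2
        have a5 := card_le_card a4
        rw [card_union_of_disjoint a3, a1, a2] at a5
        omega
      have c3 := card_union_le E1 B
      rw [pow_succ] at hT
      omega
  have e : ∀ o ∈ VV T x mu, (∏ _e ∈ S, (1 : ZMod p)) * ∏ e ∈ EE T x i \ S, -(if mu o e.1 = e.2 then (1 : ZMod p) else 0) =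
      (-1) ^ (EE T x i \ S).card * (if ∀ e ∈ EE T x i \ S, mu o e.1 = e.2 then 1 else 0) := by
    intro o _
    rw [prod_const_one, one_mul]
    have : ∀ e ∈ EE T x i \ S, -(if mu o e.1 = e.2 then (1 : ZMod p) else 0) =
      (-1) * (if mu o e.1 = e.2 then (1 : ZMod p) else 0) := fun e _ => by ring
    rw [prod_congr rfl this, prod_mul_distrib, prod_const]
    congr 1
    by_cases hall : ∀ e ∈ EE T x i \ S, mu o e.1 = e.2
    · rw [if_pos hall]
      exact prod_eq_one fun e he => if_pos (hall e he)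
    · rw [if_neg hall]
      push Not at hall
      obtain ⟨e, he, h1⟩ := hall
      exact prod_eq_zero he (if_neg h1)
  rw [sum_congr rfl e, ← mul_sum, ← sum_filter, sum_const, nsmul_eq_mul, mul_one, hB _ sdiff_subset, mul_zero]

end Core

end Step

end Pool.Agent.H84.PP
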