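import Pool.Agent.H84.PP.Small

/-!
MP_28250c, project PP, block B' (helper84): the small functional, part 2: the doubling step and the final statement.
-/

set_option autoImplicit false
set_option linter.unusedSectionVars false

namespace Pool.Agent.H84.PP

open Finset Classical

section Step

variable {p l : ℕ} {X : Type} [Fintype X] {sg : X → Bool} {O : Type} [Fintype O] {mu : O → X → X}

theorem step_inv (hinv : ∀ o x, mu o (mu o x) = x) (o : O' p mu) (z : X × Option (Fin (p + 1))) :
    mu' p mu o (mu' p mu o z) = z := by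
  obtain ⟨x, a⟩ := z
  cases a with
  | none =>
    show mu' p mu o (x, some (o.1.2 x)) = (x, none)
    show (if o.1.2 x = o.1.2 x then ((x, none) : X × Option (Fin (p + 1))) else _) = (x, none)
    rw [if_pos rfl]
  | some c =>
    by_cases h : o.1.2 x = c
    · have e : mu' p mu o (x, some c) = (x, none) := by
        show (if o.1.2 x = c then ((x, none) : X × Option (Fin (p + 1))) else _) = (x, none)
        rw [if_pos h]
      rw [e]
      show (x, some (o.1.2 x)) = (x, some c)
      rw [h]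
    · have e : mu' p mu o (x, some c) = (mu o.1.1 x, some c) := by
        show (if o.1.2 x = c then ((x, none) : X × Option (Fin (p + 1))) else (mu o.1.1 x, some c)) = _
        rw [if_neg h]
      rw [e]
      have h2 : ¬ o.1.2 (mu o.1.1 x) = c := by
        rw [o.2 x]
        exact h
      show (if o.1.2 (mu o.1.1 x) = c then ((mu o.1.1 x, none) : X × Option (Fin (p + 1)))
        else (mu o.1.1 (mu o.1.1 x), some c)) = (x, some c)
      rw [if_neg h2, hinv]

theorem step_sgn (hsg : ∀ o x, mu o x ≠ x → sg (mu o x) ≠ sg x) (o : O' p mu)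
    (z : X × Option (Fin (p + 1))) (hz : mu' p mu o z ≠ z) : sg' p sg (mu' p mu o z) ≠ sg' p sg z := by
  obtain ⟨x, a⟩ := z
  cases a with
  | none =>
    show sg x ≠ !(sg x)
    cases sg x <;> simp
  | some c =>
    by_cases h : o.1.2 x = c
    · have e : mu' p mu o (x, some c) = (x, none) := by
        show (if o.1.2 x = c then ((x, none) : X × Option (Fin (p + 1))) else _) = (x, none)
        rw [if_pos h]
      rw [e]
      show (!(sg x)) ≠ sg x
      cases sg x <;> simp
    · have e : mu' p mu o (x, some c) = (mu o.1.1 x, some c) := by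
        show (if o.1.2 x = c then ((x, none) : X × Option (Fin (p + 1))) else (mu o.1.1 x, some c)) = _
        rw [if_neg h]
      rw [e] at hz ⊢
      show sg (mu o.1.1 x) ≠ sg x
      refine hsg o.1.1 x fun h2 => hz ?_
      rw [h2]

theorem step_dif (hd : nf (fun x => sg x = true) = nf (fun x => sg x = false) + p ^ l) :
    nf (fun z => sg' p sg z = true) = nf (fun z => sg' p sg z = false) + p ^ (l + 1) := by
  have key : ∀ b : Bool, nf (fun z : X × Option (Fin (p + 1)) => sg' p sg z = b) =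
      nf (fun x => sg x = !b) + (p + 1) * nf (fun x => sg x = b) := by
    intro b
    rw [nf_sum, nf_sum, nf_sum, Fintype.sum_prod_type, mul_sum, ← sum_add_distrib]
    refine sum_congr rfl fun x _ => ?_
    rw [Fintype.sum_option]
    have e1 : ∀ c : Fin (p + 1), (if sg' p sg (x, some c) = b then 1 else 0) = if sg x = b then 1 else 0 := fun c => rfl
    have e2 : (if sg' p sg (x, none) = b then 1 else 0) = if sg x = !b then 1 else 0 := by
      show (if (!(sg x)) = b then 1 else 0) = if sg x = !b then 1 else 0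
      cases sg x <;> cases b <;> rfl
    rw [e2, sum_congr rfl fun c _ => e1 c, sum_const, card_univ, Fintype.card_fin, smul_eq_mul]
  rw [key true, key false]
  simp only [Bool.not_true, Bool.not_false]
  rw [hd, pow_succ]
  ring

theorem step_sum (S : O → (X → Fin (p + 1)) → Prop) :
    nf (fun o : O' p mu => S o.1.1 o.1.2) =
      ∑ o : O, nf (fun Q : X → Fin (p + 1) => (∀ x, Q (mu o x) = Q x) ∧ S o Q) := by
  have h1 : nf (fun o : O' p mu => S o.1.1 o.1.2) =
      nf (fun oq : O × (X → Fin (p + 1)) => (∀ x, oq.2 (mu oq.1 x) = oq.2 x) ∧ S oq.1 oq.2) := by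
    unfold nf
    refine card_bij (fun o _ => o.1) ?_ ?_ ?_
    · intro o ho
      exact mem_nf.2 ⟨o.2, (mem_nf (P := fun o : O' p mu => S o.1.1 o.1.2)).1 ho⟩
    · intro o _ o' _ h
      exact Subtype.ext h
    · intro oq hoq
      obtain ⟨h1, h2⟩ := mem_nf.1 hoq
      exact ⟨⟨oq, h1⟩, (mem_nf (P := fun o : O' p mu => S o.1.1 o.1.2)).2 h2, rfl⟩
  rw [h1, nf_sum, Fintype.sum_prod_type]
  refine sum_congr rfl fun o _ => ?_
  rw [nf_sum]

theorem one0 [F : Fintype (X → Fin (p + 1))] (m : X → X) (hm : ∀ x, m (m x) = x) :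
    ((nf (fun Q : X → Fin (p + 1) => (∀ x, Q (m x) = Q x) ∧ True) : ℕ) : ZMod p) = 1 := by
  let LO : LinearOrder X := LinearOrder.lift' (Fintype.equivFin X) (Fintype.equivFin X).injective
  have hp1 : (((p + 1 : ℕ)) : ZMod p) = 1 := by
    rw [Nat.cast_add, Nat.cast_one, CharP.cast_eq_zero (ZMod p) p, zero_add]
  have h1 := inv_card (C := Fin (p + 1)) m hm (fun _ => univ)
  have e3 : nf (fun Q : X → Fin (p + 1) => (∀ x, Q (m x) = Q x) ∧ True) =
      nf (fun Q : X → Fin (p + 1) => (∀ x, Q (m x) = Q x) ∧ ∀ x, Q x ∈ (univ : Finset (Fin (p + 1)))) :=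
    nf_congr fun Q => by simp
  rw [e3, h1, Nat.cast_prod]
  refine prod_eq_one fun y _ => ?_
  rw [inter_self, card_univ, Fintype.card_fin, hp1]

theorem core0 [F : Fintype (X → Fin (p + 1))] (h : Lev p l X sg O mu)
    (T : Finset ((X × Option (Fin (p + 1))) × (X × Option (Fin (p + 1))))) (hd : ∀ t ∈ T, t.1 ≠ t.2)
    (hT : T.card + 2 ≤ 2 ^ (l + 1)) (x : X) (i : Fin (p + 1)) :
    ∑ o : O, ((nf (fun Q : X → Fin (p + 1) => (∀ x, Q (mu o x) = Q x) ∧
      (mu o x = x ∧ ∀ t ∈ T, t.2.1 ≠ t.1.1 → mu o t.1.1 = t.2.1) ∧ ∀ y, (∀ t ∈ T, t.1.1 = y → Q y ∈ al p t) ∧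
        (y = x → Q y ≠ i)) : ℕ) : ZMod p) = 0 := by
  let LO : LinearOrder X := LinearOrder.lift' (Fintype.equivFin X) (Fintype.equivFin X).injective
  have hcore := core (T := T) (x := x) (i := i) (l := l) h.inv h.zer hd hT
  rw [← hcore]
  have e : ∑ o ∈ VV T x mu, ∏ y ∈ univ.filter (fun y => y ≤ mu o y), ph T x i mu o y =
      ∑ o, if o ∈ VV T x mu then ∏ y ∈ univ.filter (fun y => y ≤ mu o y), ph T x i mu o y else 0 := by
    rw [← sum_filter]
    refine sum_congr ?_ fun _ _ => rfl
    ext o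
    simp
  rw [e]
  refine sum_congr rfl fun o _ => ?_
  by_cases ho : o ∈ VV T x mu
  · rw [if_pos ho]
    have h1 := inv_card (C := Fin (p + 1)) (mu o) (h.inv o) (AA T x i)
    have h0 : ∏ y ∈ univ.filter (fun y => y ≤ mu o y), ph T x i mu o y =
      ((nf (fun Q : X → Fin (p + 1) => (∀ x, Q (mu o x) = Q x) ∧ ∀ y, Q y ∈ AA T x i y) : ℕ) : ZMod p) := by
      rw [h1, Nat.cast_prod]
      rfl
    rw [h0]
    congr 1
    refine nf_congr fun Q => ?_
    have h3 := (mem_filter.1 ho).2
    have h2 : ∀ y, Q y ∈ AA T x i y ↔ (∀ t ∈ T, t.1.1 = y → Q y ∈ al p t) ∧ (y = x → Q y ≠ i) := by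
      intro y
      unfold AA
      rw [mem_filter]
      exact ⟨fun h => h.2, fun h => ⟨mem_univ _, h⟩⟩
    simp only [h2]
    exact ⟨fun h2 => ⟨h2.1, h2.2.2⟩, fun h2 => ⟨h2.1, h3, h2.2⟩⟩
  · rw [if_neg ho, nf_zero, Nat.cast_zero]
    rintro Q ⟨-, h2, -⟩
    exact ho (mem_filter.2 ⟨mem_univ o, h2⟩)

theorem step (h : Lev p l X sg O mu) :
    Lev p (l + 1) (X × Option (Fin (p + 1))) (sg' p sg) (O' p mu) (mu' p mu) := by
  refine ⟨step_inv h.inv, step_sgn h.sgn, ?_, step_dif h.dif, ?_, ?_⟩
  · rw [Fintype.card_prod, Fintype.card_option, Fintype.card_fin, h.crd, pow_succ]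
  · have e : Fintype.card (O' p mu) = nf (fun o : O' p mu => True) := (nf_true fun _ => trivial).symm
    rw [e, step_sum (fun _ _ => True), Nat.cast_sum, ← h.one]
    rw [sum_congr rfl fun o _ => one0 (mu o) (h.inv o), sum_const, nsmul_eq_mul, mul_one, card_univ]
  · intro T hT hc z
    obtain ⟨x, a⟩ := z
    cases a with
    | none =>
      rw [nf_zero, Nat.cast_zero]
      intro o h1
      have h2 : ((x, some (o.1.2 x)) : X × Option (Fin (p + 1))) = (x, none) := h1.1
      exact absurd (Prod.ext_iff.1 h2).2 (by simp)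
    | some i =>
      have hfix : ∀ o : O' p mu, mu' p mu o (x, some i) = (x, some i) ↔ o.1.2 x ≠ i ∧ mu o.1.1 x = x := by
        intro o
        show (if o.1.2 x = i then ((x, none) : X × Option (Fin (p + 1))) else (mu o.1.1 x, some i)) = (x, some i) ↔ _
        by_cases h1 : o.1.2 x = i
        · rw [if_pos h1]
          constructor
          · intro h2
            exact absurd (Prod.ext_iff.1 h2).2 (by simp)
          · intro h2
            exact absurd h1 h2.1
        · rw [if_neg h1]
          constructor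
          · intro h2
            exact ⟨h1, (Prod.ext_iff.1 h2).1⟩
          · intro h2
            rw [h2.2]
      have e1 : nf (fun o : O' p mu => mu' p mu o (x, some i) = (x, some i) ∧
          ∀ t ∈ T, mu' p mu o t.1 = t.2) =
          nf (fun o : O' p mu => (mu o.1.1 x = x ∧ ∀ t ∈ T, t.2.1 ≠ t.1.1 → mu o.1.1 t.1.1 = t.2.1) ∧
            ∀ y, (∀ t ∈ T, t.1.1 = y → o.1.2 y ∈ al p t) ∧ (y = x → o.1.2 y ≠ i)) := by
        refine nf_congr fun o => ?_
        rw [hfix]
        constructor
        · rintro ⟨⟨h1, h2⟩, h3⟩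
          refine ⟨⟨h2, fun t ht => ((mu'_iff o t (hT t ht)).1 (h3 t ht)).2⟩, fun y => ⟨fun t ht hty => ?_, fun hy => ?_⟩⟩
          · rw [← hty]
            exact ((mu'_iff o t (hT t ht)).1 (h3 t ht)).1
          · rw [hy]
            exact h1
        · rintro ⟨⟨h1, h2⟩, h3⟩
          refine ⟨⟨(h3 x).2 rfl, h1⟩, fun t ht => (mu'_iff o t (hT t ht)).2 ⟨?_, h2 t ht⟩⟩
          exact (h3 t.1.1).1 t ht rfl
      rw [e1, step_sum (fun o Q => (mu o x = x ∧ ∀ t ∈ T, t.2.1 ≠ t.1.1 → mu o t.1.1 = t.2.1) ∧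
            ∀ y, (∀ t ∈ T, t.1.1 = y → Q y ∈ al p t) ∧ (y = x → Q y ≠ i)), Nat.cast_sum]
      exact core0 h T hT hc x i

end Step

theorem exists_lev (p l : ℕ) : ∃ (X : Type) (_ : Fintype X) (sg : X → Bool) (O : Type) (_ : Fintype O)
    (mu : O → X → X), Lev p l X sg O mu := by
  induction l with
  | zero =>
    refine ⟨Unit, inferInstance, fun _ => true, Unit, inferInstance, fun _ x => x, ⟨fun _ _ => rfl, ?_, ?_, ?_, ?_, ?_⟩⟩
    · intro _ x h
      exact absurd rfl h
    · simp
    · rw [nf_true fun _ => rfl, nf_zero fun _ => by simp]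
      simp
    · simp
    · intro T _ hc x
      simp at hc
  | succ l ih =>
    obtain ⟨X, _, sg, O, _, mu, h⟩ := ih
    exact ⟨_, inferInstance, _, _, inferInstance, _, step h⟩

end Pool.Agent.H84.PP
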